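import Mathlib
import Pool.Agent.E8helper61.EF.Stm

set_option autoImplicit false

open Finset

namespace Pool.Agent.E8helper26.EF

open Pool.Agent.E8helper61.EF

lemma card_ge {n M : ℕ} :
    ((univ : Finset (Fin n)).filter (fun x => M ≤ x.val)).card = n - M := by
  rw [← Nat.card_Ico M n, ← card_map Fin.valEmbedding]
  congr 1
  ext x
  rw [mem_map, mem_Ico]
  constructor
  · rintro ⟨y, hy, rfl⟩
    exact ⟨(mem_filter.1 hy).2, y.2⟩
  · rintro ⟨h1, h2⟩
    exact ⟨⟨x, h2⟩, mem_filter.2 ⟨mem_univ _, h1⟩, rfl⟩

theorem total : TotalStatement := by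
  classical
  intro n M t A _ ht
  have h1 : A.card = ∑ s ∈ range (t + 1), (A.filter (fun B => (far M B).card = s)).card :=
    card_eq_sum_card_fiberwise fun B hB => by
      rw [mem_coe, mem_range]
      exact Nat.lt_succ_of_le (ht B (mem_coe.1 hB))
  rw [h1]
  refine sum_le_sum fun s _ => ?_
  have h2 : (n - M).choose s * (NF A M s).card =
      (powersetCard s ((univ : Finset (Fin n)).filter (fun x => M ≤ x.val)) ×ˢ NF A M s).card := by
    rw [card_product, card_powersetCard, card_ge]
  rw [h2]
  refine card_le_card_of_injOn (fun B => (far M B, near M B)) ?_ ?_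
  · intro B hB
    have hB' := mem_coe.1 hB
    rw [mem_coe, mem_product, mem_powersetCard]
    refine ⟨⟨filter_subset_filter _ (subset_univ B), (mem_filter.1 hB').2⟩, ?_⟩
    exact mem_image_of_mem _ hB'
  · intro B _ C _ hBC
    have e1 : far M B = far M C := congrArg Prod.fst hBC
    have e2 : near M B = near M C := congrArg Prod.snd hBC
    ext x
    by_cases hx : x.val < M
    · have h3 : ∀ D : Finset (Fin n), x ∈ D ↔ x ∈ near M D := fun D => by
        unfold near
        rw [mem_filter]
        exact ⟨fun h => ⟨h, hx⟩, fun h => h.1⟩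
      rw [h3 B, h3 C, e2]
    · have h3 : ∀ D : Finset (Fin n), x ∈ D ↔ x ∈ far M D := fun D => by
        unfold far
        rw [mem_filter]
        exact ⟨fun h => ⟨h, not_lt.1 hx⟩, fun h => h.1⟩
      rw [h3 B, h3 C, e1]

end Pool.Agent.E8helper26.EF
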